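import Pool.Agent.Y117.GRT.Fin

/-! MP_446dfa_ag: any two linearly independent elements of the Grothendieck–Teichmüller Lie algebra
`grt` (the graded Lie algebra of the prounipotent part of `GT`) generate a free Lie algebra. -/

set_option autoImplicit false

namespace Pool.Agent.Results.MP_446dfa_ag.TwoGenerators

/-- The free Lie algebra over `ℚ` on the two letters `X, Y`. -/
abbrev F : Type := FreeLieAlgebra ℚ (Fin 2)

noncomputable def X : F := FreeLieAlgebra.of ℚ 0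

noncomputable def Y : F := FreeLieAlgebra.of ℚ 1

/-- The value `ψ(a, b)` of a Lie polynomial `ψ(X, Y)` at `X = a`, `Y = b`. -/
noncomputable def value {L : Type} [LieRing L] [LieAlgebra ℚ L] (ψ : F) (a b : L) : L :=
  FreeLieAlgebra.lift ℚ ![a, b] ψ

/-- The infinitesimal braid relations (Drinfeld–Kohno relations) on four strands. -/
def BraidRelations {L : Type} [LieRing L] (t : Fin 4 → Fin 4 → L) : Prop :=
  (∀ i j, t i j = t j i) ∧
  (∀ i j k l, [i, j, k, l].Nodup → ⁅t i j, t k l⁆ = 0) ∧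
  (∀ i j k, [i, j, k].Nodup → ⁅t i j, t i k + t j k⁆ = 0)

/-- Drinfeld's graded Grothendieck–Teichmüller Lie algebra `grt`: antisymmetry, hexagon, pentagon.
The strands `1, 2, 3, 4` are numbered `0, 1, 2, 3`. -/
structure InGrt (ψ : F) : Prop where
  antisymmetry : value ψ Y X = - ψ
  hexagon : value ψ X Y + value ψ Y (- X - Y) + value ψ (- X - Y) X = 0
  pentagon : ∀ (L : Type) [LieRing L] [LieAlgebra ℚ L] (t : Fin 4 → Fin 4 → L), BraidRelations t →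
    value ψ (t 0 1) (t 1 2 + t 1 3) + value ψ (t 0 2 + t 1 2) (t 2 3) =
      value ψ (t 1 2) (t 2 3) + value ψ (t 0 1 + t 0 2) (t 1 3 + t 2 3) + value ψ (t 0 1) (t 1 2)

/-- Let `ψ₁, ψ₂ ∈ grt` be linearly independent. The derivations `D_ψ : X ↦ 0, Y ↦ [Y, ψ]` of the
free Lie algebra, which represent the Ihara bracket (`[D_ψ, D_φ] = D_{ψ, φ}`), generate for
`ψ = ψ₁, ψ₂` a free Lie algebra of rank two. -/
theorem result (ψ₁ ψ₂ : F) (h₁ : InGrt ψ₁) (h₂ : InGrt ψ₂) (h : LinearIndependent ℚ ![ψ₁, ψ₂]) :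
    ∃ D₁ D₂ : LieDerivation ℚ F F, D₁ X = 0 ∧ D₁ Y = ⁅Y, ψ₁⁆ ∧ D₂ X = 0 ∧ D₂ Y = ⁅Y, ψ₂⁆ ∧
      Function.Injective (FreeLieAlgebra.lift ℚ ![D₁, D₂]) :=
  ⟨Pool.Agent.Y117.GRT.spd ψ₁, Pool.Agent.Y117.GRT.spd ψ₂, Pool.Agent.Y117.GRT.spd_X ψ₁,
    Pool.Agent.Y117.GRT.spd_Y ψ₁, Pool.Agent.Y117.GRT.spd_X ψ₂, Pool.Agent.Y117.GRT.spd_Y ψ₂,
    Pool.Agent.Y117.GRT.grt_two ⟨h₁.antisymmetry, h₁.hexagon, h₁.pentagon⟩
      ⟨h₂.antisymmetry, h₂.hexagon, h₂.pentagon⟩ h⟩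

end Pool.Agent.Results.MP_446dfa_ag.TwoGenerators
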